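import Pool.Agent.W208.SR.Pts

set_option autoImplicit false

namespace Pool.Agent.W208.SR

open Finset

variable {V P : Type}

/-- all pairs of `U` have types in `A` -/
def Typed (S : Sys V P) (M C : ℝ) (A : Finset V) (U : Finset (ℝ × ℝ)) : Prop :=
  ∀ z ∈ U, ∀ z' ∈ U, z ≠ z' → ∃ i ∈ A, ty S M C i (z' - z) ∨ ty S M C i (z - z')

/-- no edge inside `U` -/
def NoEdge (S : Sys V P) (M C : ℝ) (U : Finset (ℝ × ℝ)) : Prop :=
  ∀ z1 ∈ U, ∀ z2 ∈ U, ∀ z3 ∈ U, ∀ i j, ty S M C i (z2 - z1) → ty S M C j (z3 - z2) → ¬ S.Adj i j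

/-- the inductive statement -/
structure TSet (S : Sys V P) (w : V → ℕ) (B : ℕ) (M C : ℝ) (A : Finset V)
    (T : Finset (ℝ × ℝ)) : Prop where
  card : T.card = B ^ (∑ v ∈ A, w v)
  nn : ∀ t ∈ T, 0 ≤ t.1 ∧ 0 ≤ t.2
  bd : ∀ t ∈ T, ∀ b, (∀ v ∈ A, S.l v < S.l b) →
    t.1 ≤ Real.exp (M * S.l b) / 2 ∧ t.2 ≤ Real.exp (M * (S.l b + S.r b)) / 2
  typ : Typed S M C A T
  indep : ∀ (A' : Finset V) (K : ℕ), (∀ I ⊆ A', Ind S I → ∑ v ∈ I, w v ≤ K) → ∀ U ⊆ T,
    Typed S M C A' U → NoEdge S M C U → U.card ≤ 2 ^ A'.card * B ^ K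

section

variable {S : Sys V P} {w : V → ℕ} {B : ℕ} {M C : ℝ} (H : Scale S w B M C)

include H

theorem tset_empty : TSet S w B M C ∅ {0} where
  card := by simp
  nn := by
    intro t ht
    rw [mem_singleton] at ht
    subst ht
    simp
  bd := by
    intro t ht b _
    rw [mem_singleton] at ht
    subst ht
    constructor
    · show (0:ℝ) ≤ _
      positivity
    · show (0:ℝ) ≤ _
      positivity
  typ := by
    intro z hz z' hz' hne
    rw [mem_singleton] at hz hz'
    exact absurd (hz.trans hz'.symm) hne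
  indep := by
    intro A' K _ U hU _ _
    have h1 : U.card ≤ 1 := by
      have := Finset.card_le_card hU
      simpa using this
    have h2 : 0 < 2 ^ A'.card * B ^ K := by
      have := H.B1
      positivity
    omega

/-- growth: `2 m_a X_a ≤ X_b` -/
theorem grow_x {a b : V} (hab : S.l a < S.l b) :
    2 * (B:ℝ) ^ w a * Real.exp (M * S.l a) ≤ Real.exp (M * S.l b) := by
  have hB : (0:ℝ) < B := by exact_mod_cast H.B1
  have hp : 0 < 2 * (B:ℝ) ^ w a := by positivity
  have h1 := H.CB a
  have h2 := H.g1 a b hab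
  have hC := C0 H
  rw [← Real.exp_log hp, ← Real.exp_add, Real.exp_le_exp]
  rw [mul_sub] at h2
  linarith

theorem grow_y {a b : V} (hab : S.l a < S.l b) :
    2 * (B:ℝ) ^ w a * Real.exp (M * (S.l a + S.r a)) ≤ Real.exp (M * (S.l b + S.r b)) := by
  have hB : (0:ℝ) < B := by exact_mod_cast H.B1
  have hp : 0 < 2 * (B:ℝ) ^ w a := by positivity
  have h1 := H.CB a
  have h2 := H.g4 a b hab
  have hC := C0 H
  rw [← Real.exp_log hp, ← Real.exp_add, Real.exp_le_exp]
  rw [mul_sub] at h2
  linarith

/-- a number between `X / 2` and `m X` has logarithm close to that of `X` -/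
theorem log_close {a : V} {u x : ℝ} (h1 : Real.exp x / 2 ≤ u)
    (h2 : u ≤ (B:ℝ) ^ w a * Real.exp x) : |Real.log u - x| ≤ C := by
  have hB : (0:ℝ) < B := by exact_mod_cast H.B1
  have hx := Real.exp_pos x
  have hu : 0 < u := by linarith
  have hCB := H.CB a
  have hC2 := H.C2
  rw [abs_le]
  constructor
  · have h3 : Real.log (Real.exp x / 2) ≤ Real.log u := Real.log_le_log (by positivity) h1
    rw [Real.log_div hx.ne' (by norm_num), Real.log_exp] at h3
    linarith
  · have h3 : Real.log u ≤ Real.log ((B:ℝ) ^ w a * Real.exp x) := Real.log_le_log hu h2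
    rw [Real.log_mul (by positivity) hx.ne', Real.log_exp] at h3
    rw [Real.log_mul (by norm_num) (by positivity)] at hCB
    have := Real.log_nonneg (by norm_num : (1:ℝ) ≤ 2)
    linarith

omit H in
/-- the translation vector -/
noncomputable def vec (S : Sys V P) (M : ℝ) (a : V) : ℝ × ℝ :=
  (Real.exp (M * S.l a), Real.exp (M * (S.l a + S.r a)))

/-- points of different classes differ by a vector of type `a` -/
theorem cross {A : Finset V} {T : Finset (ℝ × ℝ)} (hT : TSet S w B M C A T) {a : V}
    (ha : ∀ v ∈ A, S.l v < S.l a) {t t' : ℝ × ℝ} (ht : t ∈ T) (ht' : t' ∈ T) {c c' : ℕ}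
    (hc : c < c') (hc' : c' < B ^ w a) :
    ty S M C a ((t' + (c':ℝ) • vec S M a) - (t + (c:ℝ) • vec S M a)) := by
  have n1 := hT.nn t ht
  have n2 := hT.nn t' ht'
  have b1 := hT.bd t ht a ha
  have b2 := hT.bd t' ht' a ha
  have hX := Real.exp_pos (M * S.l a)
  have hY := Real.exp_pos (M * (S.l a + S.r a))
  have k1 : (1:ℝ) ≤ (c':ℝ) - c := by
    have : ((c + 1 : ℕ) : ℝ) ≤ c' := by exact_mod_cast hc
    push_cast at this
    linarith
  have k2 : (c':ℝ) - c ≤ (B:ℝ) ^ w a - 1 := by
    have : ((c' + 1 : ℕ) : ℝ) ≤ ((B ^ w a : ℕ) : ℝ) := by exact_mod_cast hc'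
    push_cast at this
    have : (0:ℝ) ≤ c := Nat.cast_nonneg c
    linarith
  have e1 : ((t' + (c':ℝ) • vec S M a) - (t + (c:ℝ) • vec S M a)).1 =
      (t'.1 - t.1) + ((c':ℝ) - c) * Real.exp (M * S.l a) := by
    simp only [vec, Prod.fst_sub, Prod.fst_add, Prod.smul_fst, smul_eq_mul]
    ring
  have e2 : ((t' + (c':ℝ) • vec S M a) - (t + (c:ℝ) • vec S M a)).2 =
      (t'.2 - t.2) + ((c':ℝ) - c) * Real.exp (M * (S.l a + S.r a)) := by
    simp only [vec, Prod.snd_sub, Prod.snd_add, Prod.smul_snd, smul_eq_mul]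
    ring
  have m1 := mul_le_mul_of_nonneg_right k1 hX.le
  have m2 := mul_le_mul_of_nonneg_right k2 hX.le
  have m3 := mul_le_mul_of_nonneg_right k1 hY.le
  have m4 := mul_le_mul_of_nonneg_right k2 hY.le
  rw [sub_mul] at m2 m4
  unfold ty
  rw [e1, e2]
  refine ⟨by linarith, by linarith, log_close H (a := a) ?_ ?_, log_close H (a := a) ?_ ?_⟩
  · linarith
  · linarith
  · linarith
  · linarith

theorem cross_ne {A : Finset V} {T : Finset (ℝ × ℝ)} (hT : TSet S w B M C A T) {a : V}
    (ha : ∀ v ∈ A, S.l v < S.l a) {t t' : ℝ × ℝ} (ht : t ∈ T) (ht' : t' ∈ T) {c c' : ℕ}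
    (hc : c < B ^ w a) (hc' : c' < B ^ w a)
    (he : t + (c:ℝ) • vec S M a = t' + (c':ℝ) • vec S M a) : c = c' := by
  rcases lt_trichotomy c c' with h | h | h
  · have := (cross H hT ha ht ht' h hc').1
    rw [he, sub_self] at this
    exact absurd this (lt_irrefl _)
  · exact h
  · have := (cross H hT ha ht' ht h hc).1
    rw [he, sub_self] at this
    exact absurd this (lt_irrefl _)

open Classical in
/-- the new set -/
noncomputable def newT (S : Sys V P) (w : V → ℕ) (B : ℕ) (M : ℝ) (a : V)
    (T : Finset (ℝ × ℝ)) : Finset (ℝ × ℝ) :=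
  ((range (B ^ w a)) ×ˢ T).image (fun x => x.2 + (x.1:ℝ) • vec S M a)

omit H in
theorem mem_newT {a : V} {T : Finset (ℝ × ℝ)} {z : ℝ × ℝ} :
    z ∈ newT S w B M a T ↔ ∃ c < B ^ w a, ∃ t ∈ T, t + (c:ℝ) • vec S M a = z := by
  classical
  unfold newT
  rw [mem_image]
  constructor
  · rintro ⟨⟨c, t⟩, h, rfl⟩
    rw [mem_product, mem_range] at h
    exact ⟨c, h.1, t, h.2, rfl⟩
  · rintro ⟨c, hc, t, ht, rfl⟩
    exact ⟨(c, t), by rw [mem_product, mem_range]; exact ⟨hc, ht⟩, rfl⟩

theorem newT_card {A : Finset V} {T : Finset (ℝ × ℝ)} (hT : TSet S w B M C A T) {a : V}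
    (ha : ∀ v ∈ A, S.l v < S.l a) : (newT S w B M a T).card = B ^ w a * T.card := by
  classical
  unfold newT
  rw [Finset.card_image_of_injOn, card_product, card_range]
  rintro ⟨c, t⟩ h ⟨c', t'⟩ h' he
  simp only [coe_product, Set.mem_prod, mem_coe, mem_range] at h h'
  have hc := cross_ne H hT ha h.2 h'.2 h.1 h'.1 he
  subst hc
  simp only [add_left_inj] at he
  rw [he]

open Classical in
/-- a class of a set -/
noncomputable def cls (S : Sys V P) (M : ℝ) (a : V) (T U : Finset (ℝ × ℝ)) (c : ℕ) :
    Finset (ℝ × ℝ) := T.filter (fun t => t + (c:ℝ) • vec S M a ∈ U)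

omit H in
theorem cls_sub (a : V) (T U : Finset (ℝ × ℝ)) (c : ℕ) : cls S M a T U c ⊆ T :=
  Finset.filter_subset _ _

omit H in
theorem mem_cls {a : V} {T U : Finset (ℝ × ℝ)} {c : ℕ} {t : ℝ × ℝ} :
    t ∈ cls S M a T U c ↔ t ∈ T ∧ t + (c:ℝ) • vec S M a ∈ U := by
  classical
  unfold cls
  rw [mem_filter]

omit H in
theorem cls_typed {a : V} {A' : Finset V} {T U : Finset (ℝ × ℝ)} (c : ℕ)
    (h : Typed S M C A' U) : Typed S M C A' (cls S M a T U c) := by
  intro z hz z' hz' hne
  rw [mem_cls] at hz hz'
  have := h _ hz.2 _ hz'.2 (fun he => hne (add_right_cancel he))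
  rwa [add_sub_add_right_eq_sub, add_sub_add_right_eq_sub] at this

omit H in
theorem cls_noEdge {a : V} {T U : Finset (ℝ × ℝ)} (c : ℕ)
    (h : NoEdge S M C U) : NoEdge S M C (cls S M a T U c) := by
  intro z1 h1 z2 h2 z3 h3 i j hi hj
  rw [mem_cls] at h1 h2 h3
  apply h _ h1.2 _ h2.2 _ h3.2 i j
  · rwa [add_sub_add_right_eq_sub]
  · rwa [add_sub_add_right_eq_sub]

omit H in
theorem card_le_cls {a : V} {T U : Finset (ℝ × ℝ)} (h : U ⊆ newT S w B M a T) :
    U.card ≤ ∑ c ∈ range (B ^ w a), (cls S M a T U c).card := by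
  classical
  have h1 : U ⊆ (range (B ^ w a)).biUnion
      (fun c => (cls S M a T U c).image (fun t => t + (c:ℝ) • vec S M a)) := by
    intro z hz
    obtain ⟨c, hc, t, ht, rfl⟩ := mem_newT.1 (h hz)
    rw [mem_biUnion]
    exact ⟨c, mem_range.2 hc, mem_image.2 ⟨t, mem_cls.2 ⟨ht, hz⟩, rfl⟩⟩
  refine (card_le_card h1).trans (card_biUnion_le.trans (Finset.sum_le_sum fun c _ => ?_))
  exact card_image_le

/-- **The inductive step.** -/
theorem tset_insert [DecidableEq V] {A : Finset V} {T : Finset (ℝ × ℝ)}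
    (hT : TSet S w B M C A T) {a : V}
    (haA : a ∉ A) (ha : ∀ v ∈ A, S.l v < S.l a) :
    TSet S w B M C (insert a A) (newT S w B M a T) where
  card := by
    rw [newT_card H hT ha, hT.card, Finset.sum_insert haA, pow_add]
  nn := by
    intro z hz
    obtain ⟨c, hc, t, ht, rfl⟩ := mem_newT.1 hz
    have := hT.nn t ht
    have hX := Real.exp_pos (M * S.l a)
    have hY := Real.exp_pos (M * (S.l a + S.r a))
    simp only [vec, Prod.fst_add, Prod.smul_fst, smul_eq_mul, Prod.snd_add, Prod.smul_snd]
    constructor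
    · have : (0:ℝ) ≤ c * Real.exp (M * S.l a) := by positivity
      linarith
    · have : (0:ℝ) ≤ c * Real.exp (M * (S.l a + S.r a)) := by positivity
      linarith
  bd := by
    intro z hz b hb
    obtain ⟨c, hc, t, ht, rfl⟩ := mem_newT.1 hz
    have hab := hb a (mem_insert_self _ _)
    have h1 := hT.bd t ht a ha
    have hX := Real.exp_pos (M * S.l a)
    have hY := Real.exp_pos (M * (S.l a + S.r a))
    have g1 := grow_x H hab
    have g2 := grow_y H hab
    have k2 : (c:ℝ) ≤ (B:ℝ) ^ w a - 1 := by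
      have : ((c + 1 : ℕ) : ℝ) ≤ ((B ^ w a : ℕ) : ℝ) := by exact_mod_cast hc
      push_cast at this
      linarith
    have m2 := mul_le_mul_of_nonneg_right k2 hX.le
    have m4 := mul_le_mul_of_nonneg_right k2 hY.le
    rw [sub_mul] at m2 m4
    simp only [vec, Prod.fst_add, Prod.smul_fst, smul_eq_mul, Prod.snd_add, Prod.smul_snd]
    constructor <;> linarith
  typ := by
    intro z hz z' hz' hne
    obtain ⟨c, hc, t, ht, rfl⟩ := mem_newT.1 hz
    obtain ⟨c', hc', t', ht', rfl⟩ := mem_newT.1 hz'
    rcases lt_trichotomy c c' with h | h | h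
    · exact ⟨a, mem_insert_self _ _, Or.inl (cross H hT ha ht ht' h hc')⟩
    · subst h
      obtain ⟨i, hi, h⟩ := hT.typ t ht t' ht' (fun he => hne (by rw [he]))
      refine ⟨i, mem_insert_of_mem hi, ?_⟩
      rwa [add_sub_add_right_eq_sub, add_sub_add_right_eq_sub]
    · exact ⟨a, mem_insert_self _ _, Or.inr (cross H hT ha ht' ht h hc)⟩
  indep := by
    classical
    intro A' K hK U hU hty hno
    by_cases haA' : a ∈ A'
    · -- the main case
      rcases U.eq_empty_or_nonempty with rfl | hUne
      · simp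
      have hset : ((range (B ^ w a)).filter (fun c => (cls S M a T U c).Nonempty)).Nonempty := by
        obtain ⟨z, hz⟩ := hUne
        obtain ⟨c, hc, t, ht, rfl⟩ := mem_newT.1 (hU hz)
        exact ⟨c, mem_filter.2 ⟨mem_range.2 hc, t, mem_cls.2 ⟨ht, hz⟩⟩⟩
      obtain ⟨m, hm, hmax⟩ := Finset.exists_max_image _ (fun c => c) hset
      rw [mem_filter, mem_range] at hm
      obtain ⟨hmr, x, hx⟩ := hm
      have hx' := mem_cls.1 hx
      -- types inside a class
      have hin : ∀ c, ∀ t ∈ cls S M a T U c, ∀ t' ∈ cls S M a T U c, t ≠ t' →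
          ∃ i ∈ A', i ∈ A ∧ (ty S M C i (t' - t) ∨ ty S M C i (t - t')) := by
        intro c t ht t' ht' hne
        obtain ⟨i, hi, h⟩ := cls_typed c hty t ht t' ht' hne
        obtain ⟨i', hi', h'⟩ := hT.typ t (cls_sub _ _ _ _ ht) t' (cls_sub _ _ _ _ ht') hne
        have hii : i = i' := by
          rcases h with h | h <;> rcases h' with h' | h'
          · exact ty_unique H h h'
          · exact absurd (by rwa [neg_sub] : ty S M C i' (-(t' - t))) (ty_neg h)
          · exact absurd (by rwa [neg_sub] : ty S M C i' (-(t - t'))) (ty_neg h)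
          · exact ty_unique H h h'
        subst hii
        exact ⟨i, hi, hi', h⟩
      have hwa : w a ≤ K := by
        have h1 := hK {a} (by simpa using haA') (by
          intro u hu v hv hadj
          rw [mem_singleton] at hu hv
          subst hu
          subst hv
          exact lt_irrefl _ hadj.1)
        simpa using h1
      have b1 : (cls S M a T U m).card ≤ 2 ^ (A'.card - 1) * B ^ K := by
        have h1 := hT.indep (A'.erase a) K
          (fun I hI => hK I (hI.trans (erase_subset _ _))) (cls S M a T U m) (cls_sub _ _ _ _)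
          (by
            intro t ht t' ht' hne
            obtain ⟨i, hi, hi', h⟩ := hin m t ht t' ht' hne
            exact ⟨i, mem_erase.2 ⟨fun he => haA (he ▸ hi'), hi⟩, h⟩)
          (cls_noEdge m hno)
        rwa [card_erase_of_mem haA'] at h1
      have b2 : ∀ c ∈ range (B ^ w a), c ≠ m →
          (cls S M a T U c).card ≤ 2 ^ (A'.card - 1) * B ^ (K - w a) := by
        intro c hc hcm
        rcases (cls S M a T U c).eq_empty_or_nonempty with he | hne
        · rw [he, card_empty]; exact Nat.zero_le _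
        have hlt : c < m := lt_of_le_of_ne (hmax c (mem_filter.2 ⟨hc, hne⟩)) hcm
        have h1 := hT.indep (A'.filter (fun i => i ∈ A ∧ ¬ S.Adj i a)) (K - w a)
          (by
            intro I hI hind
            have haI : a ∉ I := fun h => haA (mem_filter.1 (hI h)).2.1
            have h2 := hK (insert a I) (by
              intro v hv
              rcases mem_insert.1 hv with rfl | hv
              · exact haA'
              · exact (mem_filter.1 (hI hv)).1) (by
              intro u hu v hv hadj
              rcases mem_insert.1 hu with hu' | hu'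
              · rw [hu'] at hadj
                rcases mem_insert.1 hv with hv' | hv'
                · rw [hv'] at hadj
                  exact lt_irrefl _ hadj.1
                · exact lt_asymm hadj.1 (ha v (mem_filter.1 (hI hv')).2.1)
              · rcases mem_insert.1 hv with hv' | hv'
                · rw [hv'] at hadj
                  exact (mem_filter.1 (hI hu')).2.2 hadj
                · exact hind u hu' v hv' hadj)
            rw [sum_insert haI] at h2
            omega)
          (cls S M a T U c) (cls_sub _ _ _ _)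
          (by
            intro t ht t' ht' hne
            obtain ⟨i, hi, hi', h⟩ := hin c t ht t' ht' hne
            refine ⟨i, mem_filter.2 ⟨hi, hi', ?_⟩, h⟩
            rcases h with h | h
            · exact hno _ (mem_cls.1 ht).2 _ (mem_cls.1 ht').2 _ hx'.2 i a
                (by rwa [add_sub_add_right_eq_sub])
                (cross H hT ha (mem_cls.1 ht').1 hx'.1 hlt hmr)
            · exact hno _ (mem_cls.1 ht').2 _ (mem_cls.1 ht).2 _ hx'.2 i a
                (by rwa [add_sub_add_right_eq_sub])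
                (cross H hT ha (mem_cls.1 ht).1 hx'.1 hlt hmr))
          (cls_noEdge c hno)
        refine h1.trans (Nat.mul_le_mul_right _ (Nat.pow_le_pow_right (by norm_num) ?_))
        rw [← card_erase_of_mem haA']
        apply card_le_card
        intro v hv
        rw [mem_filter] at hv
        exact mem_erase.2 ⟨fun he => haA (he ▸ hv.2.1), hv.1⟩
      have hA' : 0 < A'.card := card_pos.2 ⟨a, haA'⟩
      calc U.card ≤ ∑ c ∈ range (B ^ w a), (cls S M a T U c).card := card_le_cls hU
        _ = (cls S M a T U m).card + ∑ c ∈ (range (B ^ w a)).erase m, (cls S M a T U c).card :=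
            (Finset.add_sum_erase _ _ (mem_range.2 hmr)).symm
        _ ≤ 2 ^ (A'.card - 1) * B ^ K +
            ∑ _c ∈ (range (B ^ w a)).erase m, 2 ^ (A'.card - 1) * B ^ (K - w a) := by
            refine Nat.add_le_add b1 (Finset.sum_le_sum fun c hc => ?_)
            rw [mem_erase] at hc
            exact b2 c hc.2 hc.1
        _ ≤ 2 ^ (A'.card - 1) * B ^ K + B ^ w a * (2 ^ (A'.card - 1) * B ^ (K - w a)) := by
            rw [Finset.sum_const, smul_eq_mul]
            refine Nat.add_le_add_left (Nat.mul_le_mul_right _ ?_) _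
            refine (card_erase_le).trans ?_
            rw [card_range]
        _ = 2 ^ A'.card * B ^ K := by
            obtain ⟨n, hn⟩ : ∃ n, A'.card = n + 1 := ⟨A'.card - 1, by omega⟩
            obtain ⟨r, hr⟩ : ∃ r, K = w a + r := ⟨K - w a, by omega⟩
            rw [hn, hr, Nat.add_sub_cancel, Nat.add_sub_cancel_left, pow_add, pow_succ]
            ring
    · -- all points in one class
      rcases U.eq_empty_or_nonempty with rfl | hUne
      · simp
      obtain ⟨z, hz⟩ := hUne
      obtain ⟨c, hc, t, ht, rfl⟩ := mem_newT.1 (hU hz)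
      have hsub : U ⊆ (cls S M a T U c).image (fun t => t + (c:ℝ) • vec S M a) := by
        intro z' hz'
        obtain ⟨c', hc', t', ht', rfl⟩ := mem_newT.1 (hU hz')
        have hcc : c = c' := by
          by_contra hcc
          have hne : t + (c:ℝ) • vec S M a ≠ t' + (c':ℝ) • vec S M a := fun he =>
            hcc (cross_ne H hT ha ht ht' hc hc' he)
          obtain ⟨i, hi, h⟩ := hty _ hz _ hz' hne
          have hia : i = a := by
            rcases lt_or_gt_of_ne hcc with hlt | hlt
            · have hcr := cross H hT ha ht ht' hlt hc'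
              rcases h with h | h
              · exact ty_unique H h hcr
              · exact absurd (by rwa [neg_sub] : ty S M C i (-(_ - _))) (ty_neg hcr)
            · have hcr := cross H hT ha ht' ht hlt hc
              rcases h with h | h
              · exact absurd (by rwa [neg_sub] : ty S M C i (-(_ - _))) (ty_neg hcr)
              · exact ty_unique H h hcr
          exact haA' (hia ▸ hi)
        subst hcc
        exact mem_image.2 ⟨t', mem_cls.2 ⟨ht', hz'⟩, rfl⟩
      refine (card_le_card hsub).trans (card_image_le.trans ?_)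
      exact hT.indep A' K hK _ (cls_sub _ _ _ _) (cls_typed c hty) (cls_noEdge c hno)

/-- **Existence of the point sets.** -/
theorem exists_tset (A : Finset V) : ∃ T, TSet S w B M C A T := by
  classical
  induction A using Finset.induction_on_max_value S.l with
  | empty => exact ⟨_, tset_empty H⟩
  | insert a A haA hle ih =>
    obtain ⟨T, hT⟩ := ih
    refine ⟨_, tset_insert H hT haA fun v hv => ?_⟩
    refine lt_of_le_of_ne (hle v hv) fun he => ?_
    exact haA (S.linj v a he ▸ hv)

end

end Pool.Agent.W208.SR
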