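import Pool.Agent.W208.SR.Step

set_option autoImplicit false

namespace Pool.Agent.W208.SR

open Finset

/-- no triangle -/
def TF {V P : Type} (S : Sys V P) : Prop := ∀ u v w, S.Adj u v → S.Adj v w → S.Adj u w → False

/-- every probe meets an independent set -/
def PI {V P : Type} (S : Sys V P) : Prop := ∀ p u v, S.Con u p → S.Con v p → S.Adj u v → False

/-- independent sets -/
def Ind {V P : Type} (S : Sys V P) (I : Finset V) : Prop := ∀ u ∈ I, ∀ v ∈ I, ¬ S.Adj u v

open Classical in
/-- the weight of an independent set is at most the number of probes it meets -/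
def WT {V P : Type} [Fintype V] [Fintype P] (S : Sys V P) (w : V → ℕ) : Prop :=
  ∀ I : Finset V, Ind S I → ∑ v ∈ I, w v ≤ (univ.filter (fun p => ∃ v ∈ I, S.Con v p)).card

/-- weights of the next family -/
def stepw {V P : Type} [Fintype P] (w : V → ℕ) : V ⊕ (P × (V ⊕ P)) → ℕ :=
  Sum.elim (fun v => Fintype.card P * w v) (fun x => Sum.elim w (fun _ => 1) x.2)

variable {V P : Type} {S : Sys V P} (Q : Par S)

theorem loc_TF (h : TF S) (hp : PI S) (x y z : V ⊕ P) (h1 : Q.loc.Adj x y) (h2 : Q.loc.Adj y z)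
    (h3 : Q.loc.Adj x z) : False := by
  rcases y with v | q
  · rcases z with w | q
    · rcases x with u | q
      · exact h u v w h1 h2 h3
      · exact hp q v w ((Q.loc_adj_inr_inl q v).1 h1) ((Q.loc_adj_inr_inl q w).1 h3) h2
    · exact Q.loc_adj_inr _ _ h2
  · exact Q.loc_adj_inr _ _ h1

theorem loc_PI (hp : PI S) (b : P ⊕ P) (x y : V ⊕ P) (h1 : Q.loc.Con x b) (h2 : Q.loc.Con y b)
    (h3 : Q.loc.Adj x y) : False := by
  rcases y with v | q
  · rcases b with b | b
    · rcases x with u | q'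
      · exact hp b u v ((Q.loc_con_inl_inl u b).1 h1) ((Q.loc_con_inl_inl v b).1 h2) h3
      · exact Q.loc_con_inr_inl _ _ h1
    · exact Q.loc_con_inl_inr _ _ h2
  · exact Q.loc_adj_inr _ _ h3

theorem step_TF (h : TF S) (hp : PI S) : TF Q.step := by
  rintro (u | ⟨p, x⟩) (v | ⟨q, y⟩) (w | ⟨r, z⟩) h1 h2 h3
  · exact h u v w h1 h2 h3
  · exact Q.adj_lr _ _ h2
  · exact Q.adj_lr _ _ h1
  · exact Q.adj_lr _ _ h1
  · exact Q.adj_rl _ _ h1
  · exact Q.adj_rl _ _ h1
  · exact Q.adj_rl _ _ h2
  · rw [Q.adj_rr] at h1 h2 h3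
    obtain ⟨rfl, h1⟩ := h1
    obtain ⟨rfl, h2⟩ := h2
    exact loc_TF Q h hp x y z h1 h2 h3.2

theorem step_PI (hp : PI S) : PI Q.step := by
  rintro ⟨p, b⟩ (u | ⟨q, x⟩) (v | ⟨r, y⟩) h1 h2 h3
  · exact hp p u v ((Q.con_l _ _ _).1 h1) ((Q.con_l _ _ _).1 h2) h3
  · exact Q.adj_lr _ _ h3
  · exact Q.adj_rl _ _ h3
  · rw [Q.con_r] at h1 h2
    rw [Q.adj_rr] at h3
    obtain ⟨rfl, h1⟩ := h1
    obtain ⟨rfl, h2⟩ := h2
    exact loc_PI Q hp b x y h1 h2 h3.2

open Classical in
theorem step_WT [Fintype V] [Fintype P] {w : V → ℕ} (hw : WT S w) : WT Q.step (stepw w) := by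
  intro I hI
  set I0 : Finset V := univ.filter (fun v => Sum.inl v ∈ I) with hI0
  set Ip : P → Finset V := fun p => univ.filter (fun v => Sum.inr (p, Sum.inl v) ∈ I) with hIp
  set Jp : P → Finset P := fun p => univ.filter (fun q => Sum.inr (p, Sum.inr q) ∈ I) with hJp
  set H0 : Finset P := univ.filter (fun p => ∃ v ∈ I0, S.Con v p) with hH0
  set Hp : P → Finset P := fun p => univ.filter (fun q => ∃ v ∈ Ip p, S.Con v q) with hHp
  have i0 : Ind S I0 := by
    intro u hu v hv hadj
    simp only [hI0, mem_filter, mem_univ, true_and] at hu hv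
    exact hI _ hu _ hv ((Q.adj_ll u v).2 hadj)
  have ip : ∀ p, Ind S (Ip p) := by
    intro p u hu v hv hadj
    simp only [hIp, mem_filter, mem_univ, true_and] at hu hv
    exact hI _ hu _ hv ((Q.adj_rr p p _ _).2 ⟨rfl, hadj⟩)
  have w0 := hw I0 i0
  have wp := fun p => hw (Ip p) (ip p)
  -- the sum of the weights
  have hsum : ∑ x ∈ I, stepw w x =
      Fintype.card P * ∑ v ∈ I0, w v + ∑ p : P, (∑ v ∈ Ip p, w v + (Jp p).card) := by
    have e1 : ∑ x ∈ I, stepw w x = ∑ x, if x ∈ I then stepw w x else 0 := by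
      rw [Finset.sum_ite_mem, univ_inter]
    rw [e1, Fintype.sum_sum_type]
    congr 1
    · rw [Finset.mul_sum, hI0, Finset.sum_filter]
      rfl
    · rw [Fintype.sum_prod_type]
      refine Finset.sum_congr rfl fun p _ => ?_
      rw [Fintype.sum_sum_type]
      congr 1
      · simp only [hIp]
        rw [Finset.sum_filter]
        rfl
      · simp only [hJp]
        rw [Finset.card_filter]
        rfl
  -- the hit probes
  have hcard : (univ.filter (fun p => ∃ v ∈ I, Q.step.Con v p)).card =
      ∑ p : P, (univ.filter (fun b : P ⊕ P => ∃ v ∈ I, Q.step.Con v (p, b))).card := by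
    rw [Finset.card_filter, Fintype.sum_prod_type]
    refine Finset.sum_congr rfl fun p _ => ?_
    rw [Finset.card_filter]
  have hdisj : ∀ p, Disjoint (Hp p) (Jp p) := by
    intro p
    rw [Finset.disjoint_left]
    intro q hq hq'
    simp only [hHp, hJp, hIp, mem_filter, mem_univ, true_and] at hq hq'
    obtain ⟨v, hv, hc⟩ := hq
    exact hI _ hq' _ hv ((Q.adj_rr p p _ _).2 ⟨rfl, (Q.loc_adj_inr_inl q v).2 hc⟩)
  have hle : ∀ p, (Hp p).card + (Jp p).card ≤ Fintype.card P := by
    intro p
    rw [← Finset.card_union_of_disjoint (hdisj p)]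
    exact Finset.card_le_univ _
  have key : ∀ p : P, (if p ∈ H0 then Fintype.card P else 0) + ((Hp p).card + (Jp p).card) ≤
      (univ.filter (fun b : P ⊕ P => ∃ v ∈ I, Q.step.Con v (p, b))).card := by
    intro p
    by_cases hp : p ∈ H0
    · rw [if_pos hp]
      have hall : (univ.filter (fun b : P ⊕ P => ∃ v ∈ I, Q.step.Con v (p, b))) = univ := by
        rw [Finset.filter_true_of_mem]
        intro b _
        simp only [hH0, hI0, mem_filter, mem_univ, true_and] at hp
        obtain ⟨v, hv, hc⟩ := hp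
        exact ⟨_, hv, (Q.con_l _ _ _).2 hc⟩
      rw [hall, Finset.card_univ, Fintype.card_sum]
      have := hle p
      omega
    · rw [if_neg hp, zero_add]
      have hsub : (Hp p).disjSum (Jp p) ⊆
          (univ.filter (fun b : P ⊕ P => ∃ v ∈ I, Q.step.Con v (p, b))) := by
        intro b hb
        rw [Finset.mem_disjSum] at hb
        rw [mem_filter]
        refine ⟨mem_univ _, ?_⟩
        rcases hb with ⟨q, hq, rfl⟩ | ⟨q, hq, rfl⟩
        · simp only [hHp, hIp, mem_filter, mem_univ, true_and] at hq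
          obtain ⟨v, hv, hc⟩ := hq
          exact ⟨_, hv, (Q.con_r _ _ _ _).2 ⟨rfl, (Q.loc_con_inl_inl _ _).2 hc⟩⟩
        · simp only [hJp, mem_filter, mem_univ, true_and] at hq
          exact ⟨_, hq, (Q.con_r _ _ _ _).2 ⟨rfl, (Q.loc_con_inr_inr _ _).2 rfl⟩⟩
      have := Finset.card_le_card hsub
      rwa [Finset.card_disjSum] at this
  rw [hsum, hcard]
  have hH : Fintype.card P * H0.card = ∑ p : P, if p ∈ H0 then Fintype.card P else 0 := by
    rw [Finset.sum_ite_mem, univ_inter, Finset.sum_const, smul_eq_mul, mul_comm]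
  calc Fintype.card P * ∑ v ∈ I0, w v + ∑ p : P, (∑ v ∈ Ip p, w v + (Jp p).card)
      ≤ Fintype.card P * H0.card + ∑ p : P, ((Hp p).card + (Jp p).card) := by
        gcongr with p _
        exact wp p
    _ = ∑ p : P, ((if p ∈ H0 then Fintype.card P else 0) + ((Hp p).card + (Jp p).card)) := by
        rw [hH]
        simp only [Finset.sum_add_distrib]
    _ ≤ _ := Finset.sum_le_sum fun p _ => key p

theorem step_total [Fintype V] [Fintype P] {w : V → ℕ} {k : ℕ}
    (h : 2 * ∑ v, w v = Fintype.card P * (2 + k)) :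
    2 * ∑ v, stepw (P := P) w v = Fintype.card (P × (P ⊕ P)) * (2 + (k + 1)) := by
  have h1 : ∑ v, stepw (P := P) w v = Fintype.card P * ∑ v, w v +
      Fintype.card P * (∑ v, w v + Fintype.card P) := by
    rw [Fintype.sum_sum_type]
    congr 1
    · rw [Finset.mul_sum]; rfl
    · rw [Fintype.sum_prod_type]
      rw [Finset.sum_congr rfl (g := fun _ => (∑ v, w v + Fintype.card P))]
      · rw [Finset.sum_const, Finset.card_univ, smul_eq_mul]
      · intro p _
        rw [Fintype.sum_sum_type]
        congr 1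
        show ∑ _x : P, 1 = _
        simp
  rw [h1, Fintype.card_prod, Fintype.card_sum]
  calc 2 * (Fintype.card P * ∑ v, w v + Fintype.card P * (∑ v, w v + Fintype.card P))
      = Fintype.card P * (2 * ∑ v, w v) + Fintype.card P * (2 * ∑ v, w v)
        + 2 * Fintype.card P * Fintype.card P := by ring
    _ = _ := by rw [h]; ring

/-- The first family: one interval and one probe. -/
noncomputable def base : Sys Unit Unit where
  l := fun _ => 1 / 4
  r := fun _ => 1 / 2
  π := fun _ => 7 / 16
  lr := fun _ => by norm_num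
  linj := fun _ _ _ => rfl
  el := fun _ _ => by norm_num
  er := fun _ _ => by norm_num
  pl := fun _ _ => by norm_num
  pr := fun _ _ => by norm_num
  pe := fun _ _ => by norm_num
  pinj := fun _ _ _ => rfl
  half := fun _ _ => by norm_num
  mono := fun _ _ h => absurd h (lt_irrefl _)
  lpos := fun _ => by norm_num
  e1 := fun _ => by norm_num
  ppos := fun _ => by norm_num
  p1 := fun _ => by norm_num

theorem base_adj (u v : Unit) : ¬ base.Adj u v := fun h => lt_irrefl _ h.1

/-- **The families.** -/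
theorem exists_sys (k : ℕ) : ∃ (V P : Type) (_ : Fintype V) (_ : Fintype P) (S : Sys V P)
    (w : V → ℕ), TF S ∧ PI S ∧ WT S w ∧ 2 * ∑ v, w v = Fintype.card P * (2 + k) ∧
      0 < Fintype.card P ∧ ∀ v, 0 < w v := by
  classical
  induction k with
  | zero =>
    refine ⟨Unit, Unit, inferInstance, inferInstance, base, fun _ => 1, ?_, ?_, ?_, ?_, ?_, ?_⟩
    · intro u v w h _ _
      exact base_adj _ _ h
    · intro p u v _ _ h
      exact base_adj _ _ h
    · intro I _
      rcases I.eq_empty_or_nonempty with rfl | ⟨x, hx⟩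
      · simp
      · have h1 : ∑ v ∈ I, 1 ≤ 1 := by
          rw [Finset.sum_const, smul_eq_mul, mul_one]
          exact Finset.card_le_univ I
        refine h1.trans (Finset.card_pos.2 ⟨(), ?_⟩)
        rw [mem_filter]
        refine ⟨mem_univ _, x, hx, ?_, ?_⟩
        · show (1:ℝ) / 4 < 7 / 16
          norm_num
        · show (7:ℝ) / 16 < 1 / 2
          norm_num
    · simp
    · simp
    · intro _; exact one_pos
  | succ k ih =>
    obtain ⟨V, P, _, _, S, w, h1, h2, h3, h4, h5, h6⟩ := ih
    obtain ⟨Q⟩ := exists_par S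
    refine ⟨_, _, inferInstance, inferInstance, Q.step, stepw w, step_TF Q h1 h2, step_PI Q h2,
      step_WT Q h3, step_total h4, ?_, ?_⟩
    · rw [Fintype.card_prod, Fintype.card_sum]
      positivity
    · rintro (v | ⟨p, v | q⟩)
      · exact Nat.mul_pos h5 (h6 v)
      · exact h6 v
      · exact one_pos

end Pool.Agent.W208.SR
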