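import Pool.Agent.W208.SR.Comb

set_option autoImplicit false

namespace Pool.Agent.W208.SR

open Finset

variable {V P : Type}

/-- the difference vector `U` is of type `i` -/
def ty (S : Sys V P) (M C : ℝ) (i : V) (U : ℝ × ℝ) : Prop :=
  0 < U.1 ∧ 0 < U.2 ∧ |Real.log U.1 - M * S.l i| ≤ C ∧
    |Real.log U.2 - M * (S.l i + S.r i)| ≤ C

/-- scale conditions -/
structure Scale (S : Sys V P) (w : V → ℕ) (B : ℕ) (M C : ℝ) : Prop where
  B1 : 1 ≤ B
  C2 : Real.log 2 ≤ C
  CB : ∀ v, Real.log (2 * (B:ℝ) ^ w v) ≤ C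
  g1 : ∀ i j, S.l i < S.l j → 7 * C + 2 ≤ M * (S.l j - S.l i)
  g2 : ∀ i j, 7 * C + 2 ≤ M * |(2 * S.r i - S.l i) - S.l j|
  g3 : ∀ i j, 7 * C + 2 ≤ M * |(2 * S.r i - S.l i) - S.r j|
  g4 : ∀ i j, S.l i < S.l j → 7 * C + 2 ≤ M * ((S.l j + S.r j) - (S.l i + S.r i))

open Filter Topology in
theorem ev_large {c : ℝ} (hc : 0 < c) (D : ℝ) : ∀ᶠ M in (atTop : Filter ℝ), D ≤ M * c :=
  (tendsto_id.atTop_mul_const hc).eventually_ge_atTop D

open Filter Topology in
theorem exists_scale [Fintype V] (S : Sys V P) (w : V → ℕ) {B : ℕ} (hB : 1 ≤ B) :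
    ∃ M C, Scale S w B M C := by
  have hB' : (1:ℝ) ≤ B := by exact_mod_cast hB
  have hnn : ∀ v, 0 ≤ Real.log (2 * (B:ℝ) ^ w v) := fun v => by
    apply Real.log_nonneg
    have : (1:ℝ) ≤ (B:ℝ) ^ w v := one_le_pow₀ hB'
    linarith
  have hl2 : 0 ≤ Real.log 2 := Real.log_nonneg (by norm_num)
  set C : ℝ := ∑ v, Real.log (2 * (B:ℝ) ^ w v) + Real.log 2 with hC
  have h1 : ∀ᶠ M in (atTop : Filter ℝ), ∀ i j, S.l i < S.l j → 7 * C + 2 ≤ M * (S.l j - S.l i) :=
    eventually_all.2 fun i => eventually_all.2 fun j => by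
      by_cases h : S.l i < S.l j
      · exact (ev_large (sub_pos.2 h) _).mono fun _ h _ => h
      · exact Eventually.of_forall fun _ h' => absurd h' h
  have h2 : ∀ᶠ M in (atTop : Filter ℝ), ∀ i j, 7 * C + 2 ≤ M * |(2 * S.r i - S.l i) - S.l j| :=
    eventually_all.2 fun i => eventually_all.2 fun j =>
      ev_large (abs_pos.2 (sub_ne_zero.2 (S.el i j))) _
  have h3 : ∀ᶠ M in (atTop : Filter ℝ), ∀ i j, 7 * C + 2 ≤ M * |(2 * S.r i - S.l i) - S.r j| :=
    eventually_all.2 fun i => eventually_all.2 fun j =>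
      ev_large (abs_pos.2 (sub_ne_zero.2 (S.er i j))) _
  have h4 : ∀ᶠ M in (atTop : Filter ℝ), ∀ i j, S.l i < S.l j →
      7 * C + 2 ≤ M * ((S.l j + S.r j) - (S.l i + S.r i)) :=
    eventually_all.2 fun i => eventually_all.2 fun j => by
      by_cases h : S.l i < S.l j
      · exact (ev_large (sub_pos.2 (S.mono i j h)) _).mono fun _ h _ => h
      · exact Eventually.of_forall fun _ h' => absurd h' h
  obtain ⟨M, g1, g2, g3, g4⟩ := (h1.and (h2.and (h3.and h4))).exists
  refine ⟨M, C, hB, ?_, ?_, g1, g2, g3, g4⟩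
  · have : 0 ≤ ∑ v, Real.log (2 * (B:ℝ) ^ w v) := Finset.sum_nonneg fun v _ => hnn v
    linarith
  · intro v
    have : Real.log (2 * (B:ℝ) ^ w v) ≤ ∑ v, Real.log (2 * (B:ℝ) ^ w v) :=
      Finset.single_le_sum (f := fun v => Real.log (2 * (B:ℝ) ^ w v)) (fun v _ => hnn v)
        (mem_univ v)
    linarith

section

variable {S : Sys V P} {w : V → ℕ} {B : ℕ} {M C : ℝ} (H : Scale S w B M C)

include H

theorem C0 : 0 < C := by
  have := H.C2
  have := Real.log_pos (by norm_num : (1:ℝ) < 2)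
  linarith

theorem close {i j : V} {x : ℝ} (h1 : |x - M * S.l i| ≤ 2 * C) (h2 : |x - M * S.l j| ≤ C) :
    i = j := by
  have hC := C0 H
  rw [abs_le] at h1 h2
  by_contra hne
  rcases lt_trichotomy (S.l i) (S.l j) with h | h | h
  · have := H.g1 i j h
    rw [mul_sub] at this
    linarith
  · exact hne (S.linj i j h)
  · have := H.g1 j i h
    rw [mul_sub] at this
    linarith

theorem ty_unique {i j : V} {U : ℝ × ℝ} (h1 : ty S M C i U) (h2 : ty S M C j U) : i = j :=
  close H (h1.2.2.1.trans (by linarith [C0 H])) h2.2.2.1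

omit H in
theorem ty_neg {i j : V} {U : ℝ × ℝ} (h1 : ty S M C i U) : ¬ ty S M C j (-U) := by
  intro h2
  have := h1.1
  have := h2.1
  simp only [Prod.fst_neg] at this
  linarith

/-- the sum of a smaller and a larger difference has the type of the larger one -/
theorem ty_add {i j k : V} {U W : ℝ × ℝ} (h1 : ty S M C i U) (h2 : ty S M C j W)
    (h3 : ty S M C k (U + W)) (hij : S.l i < S.l j) : k = j := by
  have hC := C0 H
  have hg := H.g1 i j hij
  rw [mul_sub] at hg
  have hC2 := H.C2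
  obtain ⟨a1, a2, a3, a4⟩ := h1
  obtain ⟨b1, b2, b3, b4⟩ := h2
  obtain ⟨c1, c2, c3, c4⟩ := h3
  symm
  apply close H ?_ c3
  rw [abs_le] at a3 b3 ⊢
  have hUW : U.1 ≤ W.1 := by
    rw [← Real.log_le_log_iff a1 b1]
    linarith
  have e1 : Real.log W.1 ≤ Real.log (U + W).1 := by
    apply Real.log_le_log b1
    simp only [Prod.fst_add]
    linarith
  have e2 : Real.log (U + W).1 ≤ Real.log 2 + Real.log W.1 := by
    rw [← Real.log_mul (by norm_num) b1.ne']
    apply Real.log_le_log c1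
    simp only [Prod.fst_add]
    linarith
  constructor <;> linarith

omit H in
/-- the polynomial in terms of the differences -/
noncomputable def fval (U W : ℝ × ℝ) : ℝ :=
  U.1 ^ 3 * U.2 ^ 2 * W.1 * W.2 - U.1 ^ 4 * U.2 ^ 2 * W.2 - U.1 ^ 6 * W.1 ^ 2 * W.2
    - U.2 ^ 4 * W.1 ^ 2

omit H in
theorem fval_exp (a b c d : ℝ) :
    fval (Real.exp a, Real.exp b) (Real.exp c, Real.exp d) =
      Real.exp (3 * a + 2 * b + c + d) *
        (1 - Real.exp (a - c) - Real.exp (3 * a + c - 2 * b) -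
          Real.exp (2 * b + c - 3 * a - d)) := by
  have e1 : ∀ (n : ℕ) (x : ℝ), Real.exp x ^ n = Real.exp (n * x) := fun n x =>
    (Real.exp_nat_mul x n).symm
  unfold fval
  simp only [e1, mul_sub, mul_one, ← Real.exp_add]
  have q1 : ((3:ℕ):ℝ) * a + ((2:ℕ):ℝ) * b + c + d = 3 * a + 2 * b + c + d := by push_cast; ring
  have q2 : ((4:ℕ):ℝ) * a + ((2:ℕ):ℝ) * b + d = 3 * a + 2 * b + c + d + (a - c) := by
    push_cast; ring
  have q3 : ((6:ℕ):ℝ) * a + ((2:ℕ):ℝ) * c + d =
      3 * a + 2 * b + c + d + (3 * a + c - 2 * b) := by push_cast; ring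
  have q4 : ((4:ℕ):ℝ) * b + ((2:ℕ):ℝ) * c =
      3 * a + 2 * b + c + d + (2 * b + c - 3 * a - d) := by push_cast; ring
  rw [q1, q2, q3, q4]

omit H in
theorem exp2 : (3:ℝ) < Real.exp 2 := by
  have := Real.add_one_lt_exp (x := 2) (by norm_num)
  linarith

omit H in
theorem expm2 {x : ℝ} (hx : x ≤ -2) : Real.exp x < 1 / 3 := by
  have h1 : Real.exp x ≤ Real.exp (-2) := Real.exp_le_exp.2 hx
  have h2 : Real.exp (-2) = (Real.exp 2)⁻¹ := Real.exp_neg 2
  have h3 : (Real.exp 2)⁻¹ < 1 / 3 := by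
    rw [inv_lt_comm₀ (Real.exp_pos 2) (by norm_num)]
    have := exp2
    norm_num
    exact this
  linarith

/-- **The polynomial decides adjacency of the types.** -/
theorem fval_nonneg_iff {i j : V} {U W : ℝ × ℝ} (h1 : ty S M C i U) (h2 : ty S M C j W) :
    0 ≤ fval U W ↔ S.Adj i j := by
  have hC := C0 H
  obtain ⟨a1, a2, a3, a4⟩ := h1
  obtain ⟨b1, b2, b3, b4⟩ := h2
  obtain ⟨a, b⟩ := U
  obtain ⟨c, d⟩ := W
  simp only at a1 a2 a3 a4 b1 b2 b3 b4
  rw [abs_le] at a3 a4 b3 b4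
  rw [← Real.exp_log a1, ← Real.exp_log a2, ← Real.exp_log b1, ← Real.exp_log b2, fval_exp]
  set x := Real.log a
  set y := Real.log b
  set z := Real.log c
  set t := Real.log d
  rw [mul_nonneg_iff_of_pos_left (Real.exp_pos _)]
  have g1 := H.g1
  have g2 := H.g2 i j
  have g3 := H.g3 i j
  have p1 := Real.exp_pos (x - z)
  have p2 := Real.exp_pos (3 * x + z - 2 * y)
  have p3 := Real.exp_pos (2 * y + z - 3 * x - t)
  have big : ∀ s : ℝ, 2 ≤ s → 1 < Real.exp s := fun s hs => by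
    have := Real.exp_le_exp.2 hs
    have := exp2
    linarith
  constructor
  · intro h
    refine ⟨?_, ?_, ?_⟩
    · by_contra hcon
      rcases eq_or_lt_of_le (not_lt.1 hcon) with he | hlt
      · have hij := S.linj j i he
        subst hij
        have hlr := S.lr j
        rw [abs_of_pos (by linarith)] at g3
        have := big (2 * y + z - 3 * x - t) (by linarith)
        linarith
      · have g := g1 j i hlt
        rw [mul_sub] at g
        have := big (x - z) (by linarith)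
        linarith
    · by_contra hcon
      have hcon' := not_lt.1 hcon
      rw [abs_of_nonpos (by linarith)] at g2
      have := big (3 * x + z - 2 * y) (by linarith)
      linarith
    · by_contra hcon
      have hcon' := not_lt.1 hcon
      rw [abs_of_nonneg (by linarith)] at g3
      have := big (2 * y + z - 3 * x - t) (by linarith)
      linarith
  · rintro ⟨k1, k2, k3⟩
    have g := g1 i j k1
    rw [mul_sub] at g
    rw [abs_of_pos (by linarith)] at g2
    rw [abs_of_neg (by linarith)] at g3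
    have q1 := expm2 (x := x - z) (by linarith)
    have q2 := expm2 (x := 3 * x + z - 2 * y) (by linarith)
    have q3 := expm2 (x := 2 * y + z - 3 * x - t) (by linarith)
    linarith

end

end Pool.Agent.W208.SR
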