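import Pool.Agent.W208.SR.Sys

set_option autoImplicit false

namespace Pool.Agent.W208.SR

open Finset

namespace Par

variable {V P : Type} {S : Sys V P} (Q : Par S)

theorem small {x : ℝ} (hx : |x| ≤ 2 * Q.T + 2) : -Q.δ ≤ Q.h * x ∧ Q.h * x ≤ Q.δ := by
  have h1 : |Q.h * x| ≤ Q.δ := by
    rw [abs_mul, abs_of_pos Q.hpos]
    exact (mul_le_mul_of_nonneg_left hx Q.hpos.le).trans Q.hT
  exact abs_le.1 h1

/-- small local coordinates are distributed around the probes -/
theorem hlt {a b : ℝ} : Q.h * a < Q.h * b ↔ a < b := mul_lt_mul_iff_right₀ Q.hpos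

theorem heq {a b : ℝ} : Q.h * a = Q.h * b ↔ a = b := mul_right_inj' Q.hpos.ne'

theorem he (a b : ℝ) (p : ℝ) : 2 * (p + Q.h * a) - (p + Q.h * b) = p + Q.h * (2 * a - b) := by
  ring

/-- two different places: coordinates are far apart -/
theorem far {p q : P} (hpq : p ≠ q) {x y : ℝ} (hx : |x| ≤ 2 * Q.T + 2) (hy : |y| ≤ 2 * Q.T + 2) :
    2 * Q.δ < |(S.π p + Q.h * x) - (S.π q + Q.h * y)| := by
  have h1 := Q.dp p q hpq
  have h2 := Q.small hx
  have h3 := Q.small hy
  rw [lt_abs] at h1 ⊢
  rcases h1 with h1 | h1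
  · left; linarith
  · right; linarith

/-- The inserted family. -/
noncomputable def stepLoc : Loc (V ⊕ (P × (V ⊕ P))) (P × (P ⊕ P)) where
  l := Sum.elim S.l (fun x => S.π x.1 + Q.h * Q.loc.l x.2)
  r := Sum.elim S.r (fun x => S.π x.1 + Q.h * Q.loc.r x.2)
  π := fun x => S.π x.1 + Q.h * Q.loc.π x.2
  lr := by
    rintro (v | ⟨p, x⟩)
    · exact S.lr v
    · simp only [Sum.elim_inr, add_lt_add_iff_left]
      exact Q.hlt.2 (Q.loc.lr x)
  linj := by
    rintro (u | ⟨p, x⟩) (v | ⟨q, y⟩) h
    · exact congrArg _ (S.linj u v h)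
    · simp only [Sum.elim_inl, Sum.elim_inr] at h
      have h1 := Q.dl q u
      have h2 := Q.small (Q.loc_l y)
      have h3 := Q.δpos
      rw [lt_abs] at h1
      rcases h1 with h1 | h1 <;> linarith
    · simp only [Sum.elim_inl, Sum.elim_inr] at h
      have h1 := Q.dl p v
      have h2 := Q.small (Q.loc_l x)
      have h3 := Q.δpos
      rw [lt_abs] at h1
      rcases h1 with h1 | h1 <;> linarith
    · simp only [Sum.elim_inr] at h
      by_cases hpq : p = q
      · subst hpq
        rw [add_right_inj, Q.heq] at h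
        rw [Q.loc.linj x y h]
      · have h1 := Q.far hpq (Q.loc_l x) (Q.loc_l y)
        have h3 := Q.δpos
        rw [h, sub_self, abs_zero] at h1
        linarith
  el := by
    rintro (u | ⟨p, x⟩) (v | ⟨q, y⟩) h
    · exact S.el u v h
    · simp only [Sum.elim_inl, Sum.elim_inr] at h
      have h1 := Q.de q u
      have h2 := Q.small (Q.loc_l y)
      have h3 := Q.δpos
      rw [lt_abs] at h1
      rcases h1 with h1 | h1 <;> linarith
    · simp only [Sum.elim_inl, Sum.elim_inr, he] at h
      have h1 := Q.dl p v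
      have h2 := Q.small (Q.loc_e x)
      have h3 := Q.δpos
      rw [lt_abs] at h1
      rcases h1 with h1 | h1 <;> linarith
    · simp only [Sum.elim_inr, he] at h
      by_cases hpq : p = q
      · subst hpq
        rw [add_right_inj, Q.heq] at h
        exact Q.loc.el x y h
      · have h1 := Q.far hpq (Q.loc_e x) (Q.loc_l y)
        have h3 := Q.δpos
        rw [h, sub_self, abs_zero] at h1
        linarith
  er := by
    rintro (u | ⟨p, x⟩) (v | ⟨q, y⟩) h
    · exact S.er u v h
    · simp only [Sum.elim_inl, Sum.elim_inr] at h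
      have h1 := Q.de q u
      have h2 := Q.small (Q.loc_r y)
      have h3 := Q.δpos
      rw [lt_abs] at h1
      rcases h1 with h1 | h1 <;> linarith
    · simp only [Sum.elim_inl, Sum.elim_inr, he] at h
      have h1 := Q.dr p v
      have h2 := Q.small (Q.loc_e x)
      have h3 := Q.δpos
      rw [lt_abs] at h1
      rcases h1 with h1 | h1 <;> linarith
    · simp only [Sum.elim_inr, he] at h
      by_cases hpq : p = q
      · subst hpq
        rw [add_right_inj, Q.heq] at h
        exact Q.loc.er x y h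
      · have h1 := Q.far hpq (Q.loc_e x) (Q.loc_r y)
        have h3 := Q.δpos
        rw [h, sub_self, abs_zero] at h1
        linarith
  pl := by
    rintro ⟨p, b⟩ (v | ⟨q, y⟩) h
    · simp only [Sum.elim_inl] at h
      have h1 := Q.dl p v
      have h2 := Q.small (Q.loc_π b)
      have h3 := Q.δpos
      rw [lt_abs] at h1
      rcases h1 with h1 | h1 <;> linarith
    · simp only [Sum.elim_inr] at h
      by_cases hpq : p = q
      · subst hpq
        rw [add_right_inj, Q.heq] at h
        exact Q.loc.pl b y h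
      · have h1 := Q.far hpq (Q.loc_π b) (Q.loc_l y)
        have h3 := Q.δpos
        rw [h, sub_self, abs_zero] at h1
        linarith
  pr := by
    rintro ⟨p, b⟩ (v | ⟨q, y⟩) h
    · simp only [Sum.elim_inl] at h
      have h1 := Q.dr p v
      have h2 := Q.small (Q.loc_π b)
      have h3 := Q.δpos
      rw [lt_abs] at h1
      rcases h1 with h1 | h1 <;> linarith
    · simp only [Sum.elim_inr] at h
      by_cases hpq : p = q
      · subst hpq
        rw [add_right_inj, Q.heq] at h
        exact Q.loc.pr b y h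
      · have h1 := Q.far hpq (Q.loc_π b) (Q.loc_r y)
        have h3 := Q.δpos
        rw [h, sub_self, abs_zero] at h1
        linarith
  pe := by
    rintro ⟨p, b⟩ (v | ⟨q, y⟩) h
    · simp only [Sum.elim_inl] at h
      have h1 := Q.de p v
      have h2 := Q.small (Q.loc_π b)
      have h3 := Q.δpos
      rw [lt_abs] at h1
      rcases h1 with h1 | h1 <;> linarith
    · simp only [Sum.elim_inr, he] at h
      by_cases hpq : p = q
      · subst hpq
        rw [add_right_inj, Q.heq] at h
        exact Q.loc.pe b y h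
      · have h1 := Q.far hpq (Q.loc_π b) (Q.loc_e y)
        have h3 := Q.δpos
        rw [h, sub_self, abs_zero] at h1
        linarith
  pinj := by
    rintro ⟨p, b⟩ ⟨q, c⟩ h
    by_cases hpq : p = q
    · subst hpq
      simp only [add_right_inj, Q.heq] at h
      rw [Q.loc.pinj b c h]
    · have h1 := Q.far hpq (Q.loc_π b) (Q.loc_π c)
      have h3 := Q.δpos
      simp only at h
      rw [h, sub_self, abs_zero] at h1
      linarith
  half := by
    rintro ⟨p, b⟩ (v | ⟨q, y⟩) h h'
    · simp only [Sum.elim_inl] at h h' ⊢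
      have h1 := Q.dl p v
      have h1' := Q.dr p v
      have h2 := Q.small (Q.loc_π b)
      have h3 := Q.δpos
      rw [lt_abs] at h1 h1'
      have g1 : S.l v < S.π p := by rcases h1 with h1 | h1 <;> linarith
      have g2 : S.π p < S.r v := by rcases h1' with h1 | h1 <;> linarith
      have := Q.dh p v ⟨g1, g2⟩
      linarith
    · simp only [Sum.elim_inr] at h h' ⊢
      by_cases hpq : p = q
      · subst hpq
        rw [add_lt_add_iff_left, Q.hlt] at h h'
        have := Q.hlt.2 (Q.loc.half b y h h')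
        linarith
      · have h1 := Q.dp p q hpq
        have h3 := Q.δpos
        have h4 := Q.small (Q.loc_π b)
        have h5 := Q.small (Q.loc_l y)
        have h6 := Q.small (Q.loc_r y)
        rw [lt_abs] at h1
        rcases h1 with h1 | h1 <;> linarith
  mono := by
    rintro (u | ⟨p, x⟩) (v | ⟨q, y⟩) h
    · exact S.mono u v h
    · simp only [Sum.elim_inl, Sum.elim_inr] at h ⊢
      have h1 := Q.dl q u
      have h1' := Q.dr q u
      have h2 := Q.small (Q.loc_l y)
      have h2' := Q.small (Q.loc_r y)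
      have h3 := Q.δpos
      rw [lt_abs] at h1 h1'
      have g1 : S.l u < S.π q := by rcases h1 with h1 | h1 <;> linarith
      rcases h1' with h1' | h1'
      · rcases h1 with h1 | h1 <;> linarith
      · have := Q.dh q u ⟨g1, by linarith⟩
        linarith
    · simp only [Sum.elim_inl, Sum.elim_inr] at h ⊢
      have h1 := Q.dl p v
      have h2 := Q.small (Q.loc_l x)
      have h2' := Q.small (Q.loc_r x)
      have h3 := Q.δpos
      have h4 := S.lr v
      rw [lt_abs] at h1
      rcases h1 with h1 | h1 <;> linarith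
    · simp only [Sum.elim_inr] at h ⊢
      by_cases hpq : p = q
      · subst hpq
        rw [add_lt_add_iff_left, Q.hlt] at h
        have := Q.hlt.2 (Q.loc.mono x y h)
        linarith
      · have h1 := Q.dp p q hpq
        have h3 := Q.δpos
        have h4 := Q.small (Q.loc_l x)
        have h4' := Q.small (Q.loc_r x)
        have h5 := Q.small (Q.loc_l y)
        have h6 := Q.small (Q.loc_r y)
        rw [lt_abs] at h1
        rcases h1 with h1 | h1 <;> linarith

/-- The next family. -/
noncomputable def step : Sys (V ⊕ (P × (V ⊕ P))) (P × (P ⊕ P)) where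
  toLoc := Q.stepLoc
  lpos := by
    rintro (v | ⟨p, x⟩)
    · exact S.lpos v
    · show 0 < S.π p + Q.h * Q.loc.l x
      have h1 := Q.d0 p
      have h2 := Q.small (Q.loc_l x)
      have h3 := Q.δpos
      linarith
  e1 := by
    rintro (v | ⟨p, x⟩)
    · exact S.e1 v
    · show 2 * (S.π p + Q.h * Q.loc.r x) - (S.π p + Q.h * Q.loc.l x) < 1
      rw [he]
      have h1 := Q.d1 p
      have h2 := Q.small (Q.loc_e x)
      have h3 := Q.δpos
      linarith
  ppos := by
    rintro ⟨p, x⟩
    show 0 < S.π p + Q.h * Q.loc.π x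
    have h1 := Q.d0 p
    have h2 := Q.small (Q.loc_π x)
    have h3 := Q.δpos
    linarith
  p1 := by
    rintro ⟨p, x⟩
    show S.π p + Q.h * Q.loc.π x < 1
    have h1 := Q.d1 p
    have h2 := Q.small (Q.loc_π x)
    have h3 := Q.δpos
    linarith

theorem adj_ll (u v : V) : Q.step.Adj (.inl u) (.inl v) ↔ S.Adj u v := Iff.rfl

theorem adj_lr (u : V) (y : P × (V ⊕ P)) : ¬ Q.step.Adj (.inl u) (.inr y) := by
  rintro ⟨h1, h2, h3⟩
  obtain ⟨q, y⟩ := y
  have h2' : S.π q + Q.h * Q.loc.l y < 2 * S.r u - S.l u := h2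
  have h3' : 2 * S.r u - S.l u < S.π q + Q.h * Q.loc.r y := h3
  have g1 := Q.de q u
  have g2 := Q.small (Q.loc_l y)
  have g2' := Q.small (Q.loc_r y)
  have g3 := Q.δpos
  rw [lt_abs] at g1
  rcases g1 with g1 | g1 <;> linarith

theorem adj_rl (x : P × (V ⊕ P)) (v : V) : ¬ Q.step.Adj (.inr x) (.inl v) := by
  rintro ⟨h1, h2, h3⟩
  obtain ⟨q, y⟩ := x
  have h1' : S.π q + Q.h * Q.loc.l y < S.l v := h1
  have h2' : S.l v < 2 * (S.π q + Q.h * Q.loc.r y) - (S.π q + Q.h * Q.loc.l y) := h2
  rw [he] at h2'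
  have g1 := Q.dl q v
  have g2 := Q.small (Q.loc_l y)
  have g2' := Q.small (Q.loc_e y)
  have g3 := Q.δpos
  rw [lt_abs] at g1
  rcases g1 with g1 | g1 <;> linarith

theorem adj_rr (p q : P) (x y : V ⊕ P) :
    Q.step.Adj (.inr (p, x)) (.inr (q, y)) ↔ p = q ∧ Q.loc.Adj x y := by
  constructor
  · rintro ⟨h1, h2, h3⟩
    have h1' : S.π p + Q.h * Q.loc.l x < S.π q + Q.h * Q.loc.l y := h1
    have h2' : S.π q + Q.h * Q.loc.l y <
      2 * (S.π p + Q.h * Q.loc.r x) - (S.π p + Q.h * Q.loc.l x) := h2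
    have h3' : 2 * (S.π p + Q.h * Q.loc.r x) - (S.π p + Q.h * Q.loc.l x) <
      S.π q + Q.h * Q.loc.r y := h3
    rw [he] at h2' h3'
    have hpq : p = q := by
      by_contra hpq
      have g1 := Q.dp p q hpq
      have g2 := Q.small (Q.loc_l y)
      have g2' := Q.small (Q.loc_e x)
      have g2'' := Q.small (Q.loc_l x)
      have g3 := Q.δpos
      rw [lt_abs] at g1
      rcases g1 with g1 | g1 <;> linarith
    subst hpq
    rw [add_lt_add_iff_left, Q.hlt] at h1' h2' h3'
    exact ⟨rfl, h1', h2', h3'⟩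
  · rintro ⟨rfl, h1, h2, h3⟩
    refine ⟨?_, ?_, ?_⟩
    · show S.π p + Q.h * Q.loc.l x < S.π p + Q.h * Q.loc.l y
      rwa [add_lt_add_iff_left, Q.hlt]
    · show S.π p + Q.h * Q.loc.l y < 2 * (S.π p + Q.h * Q.loc.r x) - (S.π p + Q.h * Q.loc.l x)
      rwa [he, add_lt_add_iff_left, Q.hlt]
    · show 2 * (S.π p + Q.h * Q.loc.r x) - (S.π p + Q.h * Q.loc.l x) < S.π p + Q.h * Q.loc.r y
      rwa [he, add_lt_add_iff_left, Q.hlt]

theorem con_l (v : V) (p : P) (b : P ⊕ P) : Q.step.Con (.inl v) (p, b) ↔ S.Con v p := by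
  have h1 := Q.dl p v
  have h2 := Q.dr p v
  have h3 := Q.δpos
  have h4 := Q.small (Q.loc_π b)
  rw [lt_abs] at h1 h2
  constructor
  · rintro ⟨g1, g2⟩
    have g1' : S.l v < S.π p + Q.h * Q.loc.π b := g1
    have g2' : S.π p + Q.h * Q.loc.π b < S.r v := g2
    refine ⟨?_, ?_⟩
    · rcases h1 with h1 | h1 <;> linarith
    · rcases h2 with h2 | h2 <;> linarith
  · rintro ⟨g1, g2⟩
    refine ⟨?_, ?_⟩
    · show S.l v < S.π p + Q.h * Q.loc.π b
      rcases h1 with h1 | h1 <;> linarith
    · show S.π p + Q.h * Q.loc.π b < S.r v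
      rcases h2 with h2 | h2 <;> linarith

theorem con_r (p q : P) (x : V ⊕ P) (b : P ⊕ P) :
    Q.step.Con (.inr (p, x)) (q, b) ↔ p = q ∧ Q.loc.Con x b := by
  constructor
  · rintro ⟨g1, g2⟩
    have g1' : S.π p + Q.h * Q.loc.l x < S.π q + Q.h * Q.loc.π b := g1
    have g2' : S.π q + Q.h * Q.loc.π b < S.π p + Q.h * Q.loc.r x := g2
    have hpq : p = q := by
      by_contra hpq
      have f1 := Q.dp p q hpq
      have f2 := Q.small (Q.loc_l x)
      have f2' := Q.small (Q.loc_r x)
      have f2'' := Q.small (Q.loc_π b)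
      have f3 := Q.δpos
      rw [lt_abs] at f1
      rcases f1 with g1 | g1 <;> linarith
    subst hpq
    rw [add_lt_add_iff_left, Q.hlt] at g1' g2'
    exact ⟨rfl, g1', g2'⟩
  · rintro ⟨rfl, g1, g2⟩
    refine ⟨?_, ?_⟩
    · show S.π p + Q.h * Q.loc.l x < S.π p + Q.h * Q.loc.π b
      rwa [add_lt_add_iff_left, Q.hlt]
    · show S.π p + Q.h * Q.loc.π b < S.π p + Q.h * Q.loc.r x
      rwa [add_lt_add_iff_left, Q.hlt]

end Par

end Pool.Agent.W208.SR
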