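import Mathlib

set_option autoImplicit false

namespace Pool.Agent.W208.SR

open Finset

/-- A finite family of intervals `[l v, r v]` with targets `2 r v - l v`, and probe
positions `π p`. -/
structure Loc (V P : Type) where
  l : V → ℝ
  r : V → ℝ
  π : P → ℝ
  lr : ∀ v, l v < r v
  linj : ∀ u v, l u = l v → u = v
  el : ∀ u v, 2 * r u - l u ≠ l v
  er : ∀ u v, 2 * r u - l u ≠ r v
  pl : ∀ p v, π p ≠ l v
  pr : ∀ p v, π p ≠ r v
  pe : ∀ p v, π p ≠ 2 * r v - l v
  pinj : ∀ p q, π p = π q → p = q
  half : ∀ p v, l v < π p → π p < r v → l v + r v < 2 * π p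
  mono : ∀ u v, l u < l v → l u + r u < l v + r v

namespace Loc

variable {V P : Type}

/-- adjacency, oriented by the order of the left ends -/
def Adj (S : Loc V P) (u v : V) : Prop :=
  S.l u < S.l v ∧ S.l v < 2 * S.r u - S.l u ∧ 2 * S.r u - S.l u < S.r v

/-- the probe `p` meets `v` -/
def Con (S : Loc V P) (v : V) (p : P) : Prop := S.l v < S.π p ∧ S.π p < S.r v

end Loc

/-- a family inside the unit interval -/
structure Sys (V P : Type) extends Loc V P where
  lpos : ∀ v, 0 < l v
  e1 : ∀ v, 2 * r v - l v < 1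
  ppos : ∀ p, 0 < π p
  p1 : ∀ p, π p < 1

/-- parameters of the construction step -/
structure Par {V P : Type} (S : Sys V P) where
  δ : ℝ
  h : ℝ
  t : P → ℝ
  T : ℝ
  δpos : 0 < δ
  hpos : 0 < h
  hT : h * (2 * T + 2) ≤ δ
  T0 : 0 ≤ T
  tT : ∀ p, t p ≤ T
  t1 : ∀ p, 1 ≤ t p
  tsep : ∀ p q, p ≠ q → 4 * t p ≤ t q ∨ 4 * t q ≤ t p
  dl : ∀ p v, 4 * δ < |S.π p - S.l v|
  dr : ∀ p v, 4 * δ < |S.π p - S.r v|
  de : ∀ p v, 4 * δ < |S.π p - (2 * S.r v - S.l v)|
  dp : ∀ p q, p ≠ q → 4 * δ < |S.π p - S.π q|
  dh : ∀ p v, S.Con v p → 4 * δ < 2 * S.π p - (S.l v + S.r v)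
  d0 : ∀ p, 4 * δ < S.π p
  d1 : ∀ p, 4 * δ < 1 - S.π p

open Filter Topology in
theorem ev_small {c : ℝ} (hc : 0 < c) : ∀ᶠ δ in 𝓝[>] (0:ℝ), 4 * δ < c := by
  have : Tendsto (fun δ : ℝ => 4 * δ) (𝓝[>] (0:ℝ)) (𝓝 (4 * 0)) :=
    (continuous_const.mul continuous_id).continuousWithinAt.tendsto
  rw [mul_zero] at this
  exact this.eventually (eventually_lt_nhds hc)

open Filter Topology in
theorem exists_par {V P : Type} [Fintype V] [Fintype P] (S : Sys V P) : Nonempty (Par S) := by
  classical
  have h1 : ∀ᶠ δ in 𝓝[>] (0:ℝ), ∀ p v, 4 * δ < |S.π p - S.l v| :=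
    eventually_all.2 fun p => eventually_all.2 fun v =>
      ev_small (abs_pos.2 (sub_ne_zero.2 (S.pl p v)))
  have h2 : ∀ᶠ δ in 𝓝[>] (0:ℝ), ∀ p v, 4 * δ < |S.π p - S.r v| :=
    eventually_all.2 fun p => eventually_all.2 fun v =>
      ev_small (abs_pos.2 (sub_ne_zero.2 (S.pr p v)))
  have h3 : ∀ᶠ δ in 𝓝[>] (0:ℝ), ∀ p v, 4 * δ < |S.π p - (2 * S.r v - S.l v)| :=
    eventually_all.2 fun p => eventually_all.2 fun v =>
      ev_small (abs_pos.2 (sub_ne_zero.2 (S.pe p v)))
  have h4 : ∀ᶠ δ in 𝓝[>] (0:ℝ), ∀ p q, p ≠ q → 4 * δ < |S.π p - S.π q| :=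
    eventually_all.2 fun p => eventually_all.2 fun q => by
      by_cases hpq : p = q
      · exact Eventually.of_forall fun _ h => absurd hpq h
      · exact (ev_small (abs_pos.2 (sub_ne_zero.2 (fun h => hpq (S.pinj p q h))))).mono
          fun _ h _ => h
  have h5 : ∀ᶠ δ in 𝓝[>] (0:ℝ), ∀ p v, S.Con v p → 4 * δ < 2 * S.π p - (S.l v + S.r v) :=
    eventually_all.2 fun p => eventually_all.2 fun v => by
      by_cases hpq : S.Con v p
      · have := S.half p v hpq.1 hpq.2
        exact (ev_small (by linarith)).mono fun _ h _ => h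
      · exact Eventually.of_forall fun _ h => absurd h hpq
  have h6 : ∀ᶠ δ in 𝓝[>] (0:ℝ), ∀ p, 4 * δ < S.π p :=
    eventually_all.2 fun p => ev_small (S.ppos p)
  have h7 : ∀ᶠ δ in 𝓝[>] (0:ℝ), ∀ p, 4 * δ < 1 - S.π p :=
    eventually_all.2 fun p => ev_small (by linarith [S.p1 p])
  have h8 : ∀ᶠ δ in 𝓝[>] (0:ℝ), 0 < δ := self_mem_nhdsWithin
  obtain ⟨δ, g1, g2, g3, g4, g5, g6, g7, g8⟩ :=
    (h1.and (h2.and (h3.and (h4.and (h5.and (h6.and (h7.and h8))))))).exists
  set T : ℝ := 4 ^ (Fintype.card P) with hTdef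
  have hT1 : 0 < 2 * T + 2 := by positivity
  refine ⟨⟨δ, δ / (2 * T + 2), fun p => 4 ^ ((Fintype.equivFin P p : ℕ)), T, g8, by positivity,
    ?_, by positivity, ?_, ?_, ?_, g1, g2, g3, g4, g5, g6, g7⟩⟩
  · exact le_of_eq (div_mul_cancel₀ _ hT1.ne')
  · intro p
    exact pow_le_pow_right₀ (by norm_num) (Fintype.equivFin P p).2.le
  · intro p
    exact one_le_pow₀ (by norm_num)
  · intro p q hpq
    have hne : (Fintype.equivFin P p : ℕ) ≠ (Fintype.equivFin P q : ℕ) := fun h =>
      hpq ((Fintype.equivFin P).injective (Fin.ext h))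
    rcases lt_or_gt_of_ne hne with h | h
    · left
      calc (4:ℝ) * 4 ^ (Fintype.equivFin P p : ℕ) = 4 ^ ((Fintype.equivFin P p : ℕ) + 1) := by ring
        _ ≤ _ := pow_le_pow_right₀ (by norm_num) h
    · right
      calc (4:ℝ) * 4 ^ (Fintype.equivFin P q : ℕ) = 4 ^ ((Fintype.equivFin P q : ℕ) + 1) := by ring
        _ ≤ _ := pow_le_pow_right₀ (by norm_num) h

namespace Par

variable {V P : Type} {S : Sys V P} (Q : Par S)

theorem δ1 (p : P) : Q.δ < 1 / 8 := by
  have h0 := Q.d0 p
  have h1 := Q.d1 p
  linarith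

/-- the local family placed at every probe -/
noncomputable def loc : Loc (V ⊕ P) (P ⊕ P) where
  l := Sum.elim S.l (fun q => -(2 * Q.t q + S.π q))
  r := Sum.elim S.r (fun q => -Q.t q)
  π := Sum.elim (fun q => S.π q + Q.δ / 2) (fun q => -((5 * Q.t q + S.π q) / 4))
  lr := by
    rintro (v | q)
    · exact S.lr v
    · have := Q.t1 q
      have := S.ppos q
      simp only [Sum.elim_inr]
      linarith
  linj := by
    rintro (u | q) (v | q') h
    · exact congrArg _ (S.linj u v h)
    · simp only [Sum.elim_inl, Sum.elim_inr] at h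
      have := Q.t1 q'
      have := S.ppos q'
      have := S.lpos u
      linarith
    · simp only [Sum.elim_inl, Sum.elim_inr] at h
      have := Q.t1 q
      have := S.ppos q
      have := S.lpos v
      linarith
    · simp only [Sum.elim_inr] at h
      by_contra hne
      have hne' : q ≠ q' := fun h => hne (congrArg _ h)
      have := Q.t1 q
      have := S.ppos q
      have := S.p1 q
      have := Q.t1 q'
      have := S.ppos q'
      have := S.p1 q'
      rcases Q.tsep q q' hne' with h | h <;> linarith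
  el := by
    rintro (u | q) (v | q') h
    · exact S.el u v h
    · simp only [Sum.elim_inl, Sum.elim_inr] at h
      have := Q.t1 q'
      have := S.ppos q'
      have := S.lpos u
      have := S.lr u
      linarith
    · simp only [Sum.elim_inl, Sum.elim_inr] at h
      exact S.pl q v (by linarith)
    · simp only [Sum.elim_inr] at h
      have := Q.t1 q'
      have := S.ppos q'
      have := S.ppos q
      linarith
  er := by
    rintro (u | q) (v | q') h
    · exact S.er u v h
    · simp only [Sum.elim_inl, Sum.elim_inr] at h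
      have := Q.t1 q'
      have := S.ppos q'
      have := S.lpos u
      have := S.lr u
      linarith
    · simp only [Sum.elim_inl, Sum.elim_inr] at h
      exact S.pr q v (by linarith)
    · simp only [Sum.elim_inr] at h
      have := Q.t1 q'
      have := S.ppos q
      linarith
  pl := by
    rintro (p | p) (v | q) h
    · simp only [Sum.elim_inl] at h
      have h1 := Q.dl p v
      have h2 := Q.δpos
      rw [lt_abs] at h1
      rcases h1 with h1 | h1 <;> linarith
    · simp only [Sum.elim_inl, Sum.elim_inr] at h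
      have := Q.t1 q
      have := S.ppos q
      have := S.ppos p
      have := Q.δpos
      linarith
    · simp only [Sum.elim_inl, Sum.elim_inr] at h
      have := Q.t1 p
      have := S.ppos p
      have := S.lpos v
      linarith
    · simp only [Sum.elim_inr] at h
      have h1 := Q.t1 p
      have h2 := S.ppos p
      have h3 := S.p1 p
      have h4 := Q.t1 q
      have h5 := S.ppos q
      have h6 := S.p1 q
      by_cases hpq : p = q
      · subst hpq
        linarith
      · rcases Q.tsep p q hpq with h | h <;> linarith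
  pr := by
    rintro (p | p) (v | q) h
    · simp only [Sum.elim_inl] at h
      have h1 := Q.dr p v
      have h2 := Q.δpos
      rw [lt_abs] at h1
      rcases h1 with h1 | h1 <;> linarith
    · simp only [Sum.elim_inl, Sum.elim_inr] at h
      have := Q.t1 q
      have := S.ppos p
      have := Q.δpos
      linarith
    · simp only [Sum.elim_inl, Sum.elim_inr] at h
      have := Q.t1 p
      have := S.ppos p
      have := S.lpos v
      have := S.lr v
      linarith
    · simp only [Sum.elim_inr] at h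
      have h1 := Q.t1 p
      have h2 := S.ppos p
      have h3 := S.p1 p
      have h4 := Q.t1 q
      have h5 := S.ppos q
      have h6 := S.p1 q
      by_cases hpq : p = q
      · subst hpq
        linarith
      · rcases Q.tsep p q hpq with h | h <;> linarith
  pe := by
    rintro (p | p) (v | q) h
    · simp only [Sum.elim_inl] at h
      have h1 := Q.de p v
      have h2 := Q.δpos
      rw [lt_abs] at h1
      rcases h1 with h1 | h1 <;> linarith
    · simp only [Sum.elim_inl, Sum.elim_inr] at h
      have h2 := Q.δpos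
      by_cases hpq : p = q
      · subst hpq
        linarith
      · have h1 := Q.dp p q hpq
        rw [lt_abs] at h1
        rcases h1 with h1 | h1 <;> linarith
    · simp only [Sum.elim_inl, Sum.elim_inr] at h
      have := Q.t1 p
      have := S.ppos p
      have := S.lpos v
      have := S.lr v
      linarith
    · simp only [Sum.elim_inr] at h
      have h1 := Q.t1 p
      have h2 := S.ppos p
      have h5 := S.ppos q
      linarith
  pinj := by
    rintro (p | p) (q | q) h
    · simp only [Sum.elim_inl] at h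
      exact congrArg _ (S.pinj p q (by linarith))
    · simp only [Sum.elim_inl, Sum.elim_inr] at h
      have := Q.t1 q
      have := S.ppos q
      have := S.ppos p
      have := Q.δpos
      linarith
    · simp only [Sum.elim_inl, Sum.elim_inr] at h
      have := Q.t1 p
      have := S.ppos q
      have := S.ppos p
      have := Q.δpos
      linarith
    · simp only [Sum.elim_inr] at h
      by_contra hne
      have hne' : p ≠ q := fun h => hne (congrArg _ h)
      have h1 := Q.t1 p
      have h2 := S.ppos p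
      have h3 := S.p1 p
      have h4 := Q.t1 q
      have h5 := S.ppos q
      have h6 := S.p1 q
      rcases Q.tsep p q hne' with h | h <;> linarith
  half := by
    rintro (p | p) (v | q) h h'
    · simp only [Sum.elim_inl] at h h' ⊢
      have h1 := Q.dl p v
      have h2 := Q.dr p v
      have h3 := Q.δpos
      rw [lt_abs] at h1 h2
      have g1 : S.l v < S.π p := by rcases h1 with h1 | h1 <;> linarith
      have g2 : S.π p < S.r v := by linarith
      have := S.half p v g1 g2
      linarith
    · simp only [Sum.elim_inl, Sum.elim_inr] at h h' ⊢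
      have := Q.t1 q
      have := S.ppos p
      have := Q.δpos
      linarith
    · simp only [Sum.elim_inl, Sum.elim_inr] at h h' ⊢
      have := Q.t1 p
      have := S.ppos p
      have := S.lpos v
      linarith
    · simp only [Sum.elim_inr] at h h' ⊢
      have h1 := Q.t1 p
      have h2 := S.ppos p
      have h3 := S.p1 p
      have h4 := Q.t1 q
      have h5 := S.ppos q
      have h6 := S.p1 q
      by_cases hpq : p = q
      · subst hpq
        linarith
      · rcases Q.tsep p q hpq with h | h <;> linarith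
  mono := by
    rintro (u | q) (v | q') h
    · exact S.mono u v h
    · simp only [Sum.elim_inl, Sum.elim_inr] at h ⊢
      have := Q.t1 q'
      have := S.ppos q'
      have := S.lpos u
      linarith
    · simp only [Sum.elim_inl, Sum.elim_inr] at h ⊢
      have := Q.t1 q
      have := S.ppos q
      have := S.lpos v
      have := S.lr v
      linarith
    · simp only [Sum.elim_inr] at h ⊢
      have h1 := Q.t1 q
      have h2 := S.ppos q
      have h3 := S.p1 q
      have h4 := Q.t1 q'
      have h5 := S.ppos q'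
      have h6 := S.p1 q'
      by_cases hpq : q = q'
      · subst hpq
        linarith
      · rcases Q.tsep q q' hpq with h | h <;> linarith

theorem loc_adj_inl_inl (u v : V) : Q.loc.Adj (.inl u) (.inl v) ↔ S.Adj u v := Iff.rfl

theorem loc_adj_inr (u : V ⊕ P) (q : P) : ¬ Q.loc.Adj u (.inr q) := by
  rintro ⟨h1, h2, h3⟩
  have g1 := Q.t1 q
  have g2 := S.ppos q
  rcases u with u | q'
  · have g3 := S.lpos u
    have h1' : S.l u < -(2 * Q.t q + S.π q) := h1
    linarith
  · have h3' : 2 * (-Q.t q') - (-(2 * Q.t q' + S.π q')) < -Q.t q := h3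
    have g3 := S.ppos q'
    linarith

theorem loc_adj_inr_inl (q : P) (v : V) : Q.loc.Adj (.inr q) (.inl v) ↔ S.Con v q := by
  have g1 := Q.t1 q
  have g2 := S.ppos q
  have g3 := S.lpos v
  constructor
  · rintro ⟨h1, h2, h3⟩
    have h2' : S.l v < 2 * (-Q.t q) - (-(2 * Q.t q + S.π q)) := h2
    have h3' : 2 * (-Q.t q) - (-(2 * Q.t q + S.π q)) < S.r v := h3
    exact ⟨by linarith, by linarith⟩
  · rintro ⟨h1, h2⟩
    refine ⟨?_, ?_, ?_⟩
    · show -(2 * Q.t q + S.π q) < S.l v
      linarith
    · show S.l v < 2 * (-Q.t q) - (-(2 * Q.t q + S.π q))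
      linarith
    · show 2 * (-Q.t q) - (-(2 * Q.t q + S.π q)) < S.r v
      linarith

theorem loc_con_inl_inl (v : V) (q : P) : Q.loc.Con (.inl v) (.inl q) ↔ S.Con v q := by
  have h1 := Q.dl q v
  have h2 := Q.dr q v
  have h3 := Q.δpos
  rw [lt_abs] at h1 h2
  constructor
  · rintro ⟨g1, g2⟩
    have g1' : S.l v < S.π q + Q.δ / 2 := g1
    have g2' : S.π q + Q.δ / 2 < S.r v := g2
    refine ⟨?_, by linarith⟩
    rcases h1 with h1 | h1 <;> linarith
  · rintro ⟨g1, g2⟩
    refine ⟨?_, ?_⟩
    · show S.l v < S.π q + Q.δ / 2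
      linarith
    · show S.π q + Q.δ / 2 < S.r v
      rcases h2 with h2 | h2 <;> linarith

theorem loc_con_inl_inr (v : V) (q : P) : ¬ Q.loc.Con (.inl v) (.inr q) := by
  rintro ⟨g1, g2⟩
  have g1' : S.l v < -((5 * Q.t q + S.π q) / 4) := g1
  have h1 := Q.t1 q
  have h2 := S.ppos q
  have h3 := S.lpos v
  linarith

theorem loc_con_inr_inl (q q' : P) : ¬ Q.loc.Con (.inr q) (.inl q') := by
  rintro ⟨g1, g2⟩
  have g2' : S.π q' + Q.δ / 2 < -Q.t q := g2
  have h1 := Q.t1 q
  have h2 := S.ppos q'
  have h3 := Q.δpos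
  linarith

theorem loc_con_inr_inr (q q' : P) : Q.loc.Con (.inr q) (.inr q') ↔ q = q' := by
  have h1 := Q.t1 q
  have h2 := S.ppos q
  have h3 := S.p1 q
  have h4 := Q.t1 q'
  have h5 := S.ppos q'
  have h6 := S.p1 q'
  constructor
  · rintro ⟨g1, g2⟩
    have g1' : -(2 * Q.t q + S.π q) < -((5 * Q.t q' + S.π q') / 4) := g1
    have g2' : -((5 * Q.t q' + S.π q') / 4) < -Q.t q := g2
    by_contra hne
    rcases Q.tsep q q' hne with h | h <;> linarith
  · rintro rfl
    refine ⟨?_, ?_⟩
    · show -(2 * Q.t q + S.π q) < -((5 * Q.t q + S.π q) / 4)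
      linarith
    · show -((5 * Q.t q + S.π q) / 4) < -Q.t q
      linarith

/-- all local coordinates are bounded -/
theorem loc_l (x : V ⊕ P) : |Q.loc.l x| ≤ 2 * Q.T + 2 := by
  have h0 := Q.T0
  rcases x with v | q
  · have h1 := S.lpos v
    have h2 := S.lr v
    have h3 := S.e1 v
    show |S.l v| ≤ _
    rw [abs_le]
    constructor <;> linarith
  · have h1 := Q.t1 q
    have h2 := S.ppos q
    have h3 := S.p1 q
    have h4 := Q.tT q
    show |-(2 * Q.t q + S.π q)| ≤ _
    rw [abs_le]
    constructor <;> linarith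

theorem loc_r (x : V ⊕ P) : |Q.loc.r x| ≤ 2 * Q.T + 2 := by
  have h0 := Q.T0
  rcases x with v | q
  · have h1 := S.lpos v
    have h2 := S.lr v
    have h3 := S.e1 v
    show |S.r v| ≤ _
    rw [abs_le]
    constructor <;> linarith
  · have h1 := Q.t1 q
    have h2 := S.ppos q
    have h3 := S.p1 q
    have h4 := Q.tT q
    show |-Q.t q| ≤ _
    rw [abs_le]
    constructor <;> linarith

theorem loc_e (x : V ⊕ P) : |2 * Q.loc.r x - Q.loc.l x| ≤ 2 * Q.T + 2 := by
  have h0 := Q.T0
  rcases x with v | q
  · have h1 := S.lpos v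
    have h2 := S.lr v
    have h3 := S.e1 v
    show |2 * S.r v - S.l v| ≤ _
    rw [abs_le]
    constructor <;> linarith
  · have h1 := Q.t1 q
    have h2 := S.ppos q
    have h3 := S.p1 q
    have h4 := Q.tT q
    show |2 * (-Q.t q) - (-(2 * Q.t q + S.π q))| ≤ _
    rw [abs_le]
    constructor <;> linarith

theorem loc_π (x : P ⊕ P) : |Q.loc.π x| ≤ 2 * Q.T + 2 := by
  have h0 := Q.T0
  rcases x with q | q
  · have h1 := Q.t1 q
    have h2 := S.ppos q
    have h3 := S.p1 q
    have h4 := Q.δpos
    have h5 := Q.δ1 q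
    show |S.π q + Q.δ / 2| ≤ _
    rw [abs_le]
    constructor <;> linarith
  · have h1 := Q.t1 q
    have h2 := S.ppos q
    have h3 := S.p1 q
    have h4 := Q.tT q
    show |-((5 * Q.t q + S.π q) / 4)| ≤ _
    rw [abs_le]
    constructor <;> linarith

end Par

end Pool.Agent.W208.SR
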